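import Pool.Agent.TH85.ZC.Pairing
import Pool.Agent.TH133.AlgEq

/-!
# Products of a surface with a curve
-/

open CategoryTheory AlgebraicGeometry

universe u v w

namespace Pool.Agent.TH85.ZC

open Pool.Agent.H914 Pool.Agent.H914.VarClass Pool.Agent.H914.VarClass.Obj Pool.Agent.W492.BB
  Pool.Agent.W550.Corr Pool.Agent.TH133

set_option linter.unusedSectionVars false

variable {k : Type u} [Field k] {𝒱 : VarClass k}

section chow

variable {C : TheoryData.{u, v, 0} 𝒱 ℚ} [hC : IsChowProj C] {X Y Z W P S T B : 𝒱.Obj}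

include hC

/-- The projector onto the middle part of the motive of a curve. -/
noncomputable def midCurve (C : TheoryData.{u, v, 0} 𝒱 ℚ) (e : C.A B) : C.A (B.prod B) :=
  dg C B - C.ext e 1 - C.ext 1 e

lemma midCurve_tp (e : C.A B) : tp C (midCurve C e) = midCurve C e := by
  rw [midCurve, tp_sub, tp_sub, tp_dg, tp_ext, tp_ext]
  abel

lemma midCurve_mem {e : C.A B} (hB : B.dim = 1) (he : e ∈ C.gr B 1) :
    midCurve C e ∈ C.gr (B.prod B) 1 := by
  have h0 := dg_mem C B
  have h1 := ext_mem' he (C.one_mem B)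
  have h2 := ext_mem' (C.one_mem B) he
  rw [hB] at h0
  exact Submodule.sub_mem _ (Submodule.sub_mem _ (by exact_mod_cast h0) (by exact_mod_cast h1))
    (by exact_mod_cast h2)

lemma midCurve_comp {e : C.A B} (hB : B.dim = 1) (he : e ∈ C.gr B 1) (hd : HasDegree C e 1) :
    C.comp (midCurve C e) (midCurve C e) = midCurve C e := by
  have h00 : C.comp (C.ext e (1 : C.A B)) (C.ext e (1 : C.A B)) = C.ext e (1 : C.A B) := by
    have : C.comp (C.ext e (1 : C.A B)) (C.ext e (1 : C.A B)) = (1 : ℚ) • C.ext e (1 : C.A B) :=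
      comp_ext_ext (by rwa [one_mul])
    rwa [one_smul] at this
  have h22 : C.comp (C.ext (1 : C.A B) e) (C.ext (1 : C.A B) e) = C.ext (1 : C.A B) e := by
    have : C.comp (C.ext (1 : C.A B) e) (C.ext (1 : C.A B) e) = (1 : ℚ) • C.ext (1 : C.A B) e :=
      comp_ext_ext (by rwa [mul_one])
    rwa [one_smul] at this
  have h02 : C.comp (C.ext e (1 : C.A B)) (C.ext (1 : C.A B) e) = 0 := by
    have : C.comp (C.ext e (1 : C.A B)) (C.ext (1 : C.A B) e) = (0 : ℚ) • C.ext e e :=
      comp_ext_ext (by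
        rw [mul_one]
        exact hasDegree_of_ne (C.one_mem B) (by rw [hB]; norm_num))
    rwa [zero_smul] at this
  have h20 : C.comp (C.ext (1 : C.A B) e) (C.ext e (1 : C.A B)) = 0 := by
    have : C.comp (C.ext (1 : C.A B) e) (C.ext e (1 : C.A B)) =
        (0 : ℚ) • C.ext (1 : C.A B) (1 : C.A B) :=
      comp_ext_ext (hasDegree_of_ne (C.mul_mem he he) (by rw [hB]; norm_num))
    rwa [zero_smul] at this
  rw [midCurve, comp_sub, comp_sub, sub_comp, sub_comp, sub_comp, sub_comp, sub_comp, sub_comp,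
    comp_dg, dg_comp, dg_comp, comp_dg, comp_dg, h00, h22, h02, h20]
  abel

/-- The value of the middle projector on zero-cycles. -/
lemma midCurve_act {e : C.A B} (hB : B.dim = 1) (he : e ∈ C.gr B 1) (hd : HasDegree C e 1)
    {y : C.A B} (hy : C.Deg B.dim y) : C.Deg 1 (C.act (midCurve C e) y) ∧
      HasDegree C (C.act (midCurve C e) y) 0 := by
  obtain ⟨q, hq⟩ := exists_hasDegree (x := y) hy
  have hy1 : y ∈ C.gr B 1 := by
    have : y ∈ C.gr B B.dim := hy
    rw [hB] at this
    exact_mod_cast this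
  have c0 : C.act (C.ext e (1 : C.A B)) y = 0 := by
    rw [act_ext' (q := 0), zero_smul]
    exact hasDegree_of_ne (C.mul_mem he hy1) (by rw [hB]; norm_num)
  have c2 : C.act (C.ext (1 : C.A B) e) y = q • e := act_ext' (by rwa [one_mul])
  have h1 : C.act (midCurve C e) y = y - q • e := by
    rw [midCurve, C.act_sub, C.act_sub, act_dg, c0, c2, sub_zero]
  rw [h1]
  refine ⟨Submodule.sub_mem _ hy1 (Submodule.smul_mem _ _ he), ?_⟩
  have h2 := hasDegree_add hq (hasDegree_smul (-q) hd)
  rw [mul_one, add_neg_cancel, neg_smul, ← sub_eq_add_neg] at h2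
  exact h2

/-- The self-intersection number of the middle projector is `-2g`. -/
lemma midCurve_deg {e : C.A B} (hd : HasDegree C e 1) {g : ℕ} (hB : IsCurveOfGenus C B g) :
    HasDegree C (C.pull (Obj.lift (𝟙 B) (𝟙 B)) (midCurve C e)) (-2 * g) := by
  have h1 : C.pull (Obj.lift (𝟙 B) (𝟙 B)) (C.ext e (1 : C.A B)) = e := by
    rw [TheoryData.ext, map_mul, ← C.pull_comp, ← C.pull_comp, lift_fst, lift_snd, C.pull_id,
      C.pull_id, mul_one]
  have h2 : C.pull (Obj.lift (𝟙 B) (𝟙 B)) (C.ext (1 : C.A B) e) = e := by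
    rw [TheoryData.ext, map_mul, ← C.pull_comp, ← C.pull_comp, lift_fst, lift_snd, C.pull_id,
      C.pull_id, one_mul]
  rw [midCurve, map_sub, map_sub, h1, h2]
  have h3 := hasDegree_add (hasDegree_add hB.2 (hasDegree_smul (-1) hd)) (hasDegree_smul (-1) hd)
  have e1 : (2 - 2 * (g : ℚ) + -1 * 1 + -1 * 1) = -2 * g := by ring
  rw [e1] at h3
  have e2 : C.pull (Obj.lift (𝟙 B) (𝟙 B)) (dg C B) - e - e =
      C.up (Obj.lift (𝟙 B) (𝟙 B)) (dg C B) + (-1 : ℚ) • e + (-1 : ℚ) • e := by
    rw [neg_smul, one_smul]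
    change _ = C.pull (Obj.lift (𝟙 B) (𝟙 B)) (dg C B) + -e + -e
    abel
  rw [e2]
  exact h3

/-- Contraction of the second factor. -/
lemma tens_zero_of_deg {Γ : C.A (X.prod Y)} {Δ : C.A (B.prod B)} {q : ℚ}
    (hΔ : HasDegree C (C.pull (Obj.lift (𝟙 B) (𝟙 B)) Δ) q) (hq : q ≠ 0)
    (h : tens C Γ Δ = 0) : Γ = 0 := by
  let j : (X.prod Y).prod B ⟶ (X.prod B).prod (Y.prod B) :=
    Obj.lift (Obj.lift (fst (X.prod Y) B ≫ fst X Y) (snd (X.prod Y) B))
      (Obj.lift (fst (X.prod Y) B ≫ snd X Y) (snd (X.prod Y) B))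
  have e1 : j ≫ prodMap (fst X B) (fst Y B) = fst (X.prod Y) B := by
    apply prod_ext <;> simp [j, prodMap]
  have e2 : j ≫ prodMap (snd X B) (snd Y B) = snd (X.prod Y) B ≫ Obj.lift (𝟙 B) (𝟙 B) := by
    apply prod_ext <;> simp [j, prodMap]
  have h1 : C.pull j (tens C Γ Δ) =
      C.pull (fst (X.prod Y) B) Γ * C.pull (snd (X.prod Y) B) (C.pull (Obj.lift (𝟙 B) (𝟙 B)) Δ) := by
    rw [tens, map_mul, ← C.pull_comp, ← C.pull_comp, e1, e2, C.pull_comp]
  have h2 : C.push (fst (X.prod Y) B) (C.pull j (tens C Γ Δ)) = q • Γ := by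
    rw [h1, C.proj_left, (hΔ _).2, mul_smul_comm, mul_one]
  rw [h, map_zero, map_zero] at h2
  have h3 : q⁻¹ • (q • Γ) = 0 := by rw [← h2, smul_zero]
  rwa [smul_smul, inv_mul_cancel₀ hq, one_smul] at h3

end chow

section weil

variable {C : TheoryData.{u, v, 0} 𝒱 ℚ} [hC : IsChowProj C] {H : WeilTheoryData.{u, v, 0} C ℂ}
  [hH : IsWeilProj H] {S B X Y P : 𝒱.Obj}

include hC hH

/-- A correspondence supported on a divisor of the first factor is killed by three
self-correspondences which are homologically trivial, and the last of which acts as zero on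
zero-cycles. -/
lemma supported_comp_zero (hF : HasCycleFacts H) {l : ℤ} {G : C.A (Y.prod X)}
    {n : C.A (X.prod X)} (hG : C.Deg l G) (hG0 : ∀ y : C.A Y, C.Deg Y.dim y → C.act G y = 0)
    (hn : n ∈ C.gr (X.prod X) X.dim) (hn0 : H.cl n = 0) (hl : l = 3)
    (hnt : tp C n = n) (hna : ∀ x : C.A X, C.Deg X.dim x → C.act n x = 0) :
    C.comp (C.comp (C.comp G n) n) n = 0 := by
  obtain ⟨m, D, f, W, hW, hsum⟩ := hF.blochSrinivas Y X l G hG hG0
  rw [hsum, sum_comp, sum_comp, sum_comp]
  refine Finset.sum_eq_zero fun j _ => ?_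
  change C.comp (C.comp (C.comp (C.push (prodMap (f j) (𝟙 X)) (W j)) n) n) n = 0
  rw [← cograph_comp, comp_assoc C (C.cograph (f j)) (W j) n,
    comp_assoc C (C.cograph (f j)) (C.comp (W j) n) n,
    comp_assoc C (C.cograph (f j)) (C.comp (C.comp (W j) n) n) n]
  rw [comp_comp_zero hF (i := 2) (l := X.dim) (Γ := n) hn (by ring) (by
    intro y hy
    rw [hnt]
    exact hna y hy) hn hn0 (by
      have := (hW j).2
      rw [hl] at this
      exact_mod_cast this)]
  exact comp_zero C _

/-- The Albanese map of a surface `S` with `H^{2,0} = 0` is injective if the products of the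
elements of its kernel with the zero-cycles of degree zero of one curve of positive genus vanish. -/
theorem albaneseInjective_of_curve {D : HodgeData H} (hD : HasZeroCycleTheory D)
    (hS : D.IsGenusZero S) {g : ℕ} (hg : 0 < g) (hB : IsCurveOfGenus C B g)
    (h : ∀ (a : C.A S) (c : C.A B), AlbaneseKer H a → C.Deg 1 c → HasDegree C c 0 →
      C.ext a c = 0) : AlbaneseInjective H S := by
  intro a ha
  obtain ⟨t, ht⟩ := hD.transcendental S hS.dim
  have hF := hD.cycles
  have hw0 : H.cl (C.comp t t) = 0 := cl_trans_two hD.hodge hD.functorial ht hS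
  obtain ⟨e, he, he1, he2⟩ := exists_deg_one C B
  have hed : HasDegree C e 1 := fun Y => ⟨by rw [he2, one_smul], by rw [he1, one_smul]⟩
  have he' : e ∈ C.gr B 1 := by
    have : e ∈ C.gr B B.dim := he
    rw [hB.1] at this
    exact_mod_cast this
  set p : C.A (B.prod B) := midCurve C e with hp
  have hpm : p ∈ C.gr (B.prod B) B.dim := by
    rw [hB.1]
    exact_mod_cast midCurve_mem hB.1 he'
  set n : C.A ((S.prod B).prod (S.prod B)) := tens C (C.comp t t) p with hn
  set G : C.A ((S.prod B).prod (S.prod B)) := tens C (C.ext (1 : C.A S) a) p with hG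
  have hnm : n ∈ C.gr ((S.prod B).prod (S.prod B)) (S.prod B).dim := by
    have h1 := tens_mem C (trans_mem_two ht hS.dim) hpm
    rw [dim_prod]
    exact_mod_cast h1
  have hn0 : H.cl n = 0 := by
    rw [hn, cl_tens, hw0, tens, map_zero, zero_mul]
  have hnt : tp C n = n := by
    rw [hn, tp_tens, trans_tp ht, hp, midCurve_tp]
  have hna : ∀ x : C.A (S.prod B), C.Deg (S.prod B).dim x → C.act n x = 0 := by
    intro x hx
    refine act_map_span (hF.product S B x hx) ?_
    rintro c ⟨y, z, hy, hz, rfl⟩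
    rw [hn, act_tens_ext C _ _ (fun f c => ch_comm C _ _)]
    have h1 := midCurve_act hB.1 he' hed hz
    exact h _ _ (trans_two_mem hF ht hS.dim hy) h1.1 h1.2
  have hGm : G ∈ C.gr ((S.prod B).prod (S.prod B)) 3 := by
    have h1 := tens_mem C (ext_mem' (C.one_mem S) ha.1.1) hpm
    rw [hB.1, hS.dim] at h1
    norm_num at h1
    exact h1
  have hGa : ∀ x : C.A (S.prod B), C.Deg (S.prod B).dim x → C.act G x = 0 := by
    intro x hx
    refine act_map_span (hF.product S B x hx) ?_
    rintro c ⟨y, z, hy, hz, rfl⟩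
    rw [hG, act_tens_ext C _ _ (fun f c => ch_comm C _ _)]
    have h1 := midCurve_act hB.1 he' hed hz
    obtain ⟨q, hq⟩ := act_ext_one (H := H) (a := a) y hy
    have h2 := h _ _ ha h1.1 h1.2
    rw [hq, TheoryData.ext, map_smul, smul_mul_assoc]
    change q • C.ext a _ = 0
    rw [h2, smul_zero]
  have h0 := supported_comp_zero hF hGm hGa hnm hn0 rfl hnt hna
  have hpp : C.comp p p = p := midCurve_comp hB.1 he' hed
  have h1 : C.comp G n = G := by
    rw [hG, hn, tens_comp', ext_comp', trans_two_act ht ha, hpp]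
  rw [h1, h1, h1] at h0
  have h2 : C.ext (1 : C.A S) a = 0 :=
    tens_zero_of_deg (midCurve_deg hed hB) (by
      have : (0 : ℚ) < g := by exact_mod_cast hg
      intro h3
      linarith) h0
  exact pull_snd_injective h2

end weil

end Pool.Agent.TH85.ZC
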