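import Pool.Agent.TH133.DefsSq
import Pool.Agent.TH133.DefsPg

/-!
# Exterior products of zero-cycles: definitions
-/

open CategoryTheory AlgebraicGeometry

universe u v w

namespace Pool.Agent.TH85.ZC

open Pool.Agent.H914 Pool.Agent.H914.VarClass Pool.Agent.H914.VarClass.Obj Pool.Agent.W492.BB
  Pool.Agent.W550.Corr Pool.Agent.TH133

variable {k : Type u} [Field k] {𝒱 : VarClass k} {C : TheoryData.{u, v, 0} 𝒱 ℚ}

/-- The zero-cycle `x` on `X × Y` is a linear combination of exterior products of zero-cycles. -/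
def SpannedByProducts (C : TheoryData.{u, v, 0} 𝒱 ℚ) {X Y : 𝒱.Obj} (x : C.A (X.prod Y)) : Prop :=
  x ∈ Submodule.span ℚ {c | ∃ (a : C.A X) (b : C.A Y), C.Deg X.dim a ∧ C.Deg Y.dim b ∧
    c = C.ext a b}

/-- The correspondence `Γ ∈ CH^l(X × Y)` is supported on `D × Y` for a divisor `D` on `X`:
it is a finite sum of classes `(f_j × id)_* W_j` with `f_j : D_j → X`, `dim D_j = dim X - 1`,
`W_j ∈ CH^(l-1)(D_j × Y)` (the `D_j` are resolutions of singularities of the components of `D`). -/
def SupportedOnDivisor (C : TheoryData.{u, v, 0} 𝒱 ℚ) {X Y : 𝒱.Obj} (l : ℤ)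
    (Γ : C.A (X.prod Y)) : Prop :=
  ∃ (m : ℕ) (D : Fin m → 𝒱.Obj) (f : ∀ j, D j ⟶ X) (W : ∀ j, C.A ((D j).prod Y)),
    (∀ j, (D j).dim + 1 = X.dim ∧ C.Deg (l - 1) (W j)) ∧
      Γ = ∑ j, C.down (prodMap (f j) (𝟙 Y)) (W j)

/-- Three classical facts on the cycles of smooth projective complex varieties.

* `product`: the zero-cycles on `X × Y` are spanned by exterior products of zero-cycles.
* `blochSrinivas`: if `Γ ∈ CH^l(X × Y)` acts as zero on the zero-cycles of `X` (that is, the
  restrictions of `Γ` to `x × Y`, `x ∈ X`, are rationally trivial), then `Γ` is supported on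
  `D × Y` for a divisor `D` on `X` (Bloch and Srinivas; rational coefficients, uncountable ground
  field, resolution of singularities).
* `picard`: if `Γ ∈ CH^l(X × Y)` acts as zero on `H^(2i-1)(X)` and `i + l = dim X + 1`, then
  `Γ_* : CH^i(X)_hom → CH^1(Y)_hom` is zero (functoriality of the Abel-Jacobi maps, and the
  injectivity of the Abel-Jacobi map on divisor classes). -/
structure HasCycleFacts {K : Type w} [Field K] (H : WeilTheoryData.{u, v, w} C K) : Prop where
  product : ∀ (X Y : 𝒱.Obj) (x : C.A (X.prod Y)), C.Deg (X.prod Y).dim x →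
    SpannedByProducts C x
  blochSrinivas : ∀ (X Y : 𝒱.Obj) (l : ℤ) (Γ : C.A (X.prod Y)), C.Deg l Γ →
    (∀ x : C.A X, C.Deg X.dim x → C.act Γ x = 0) → SupportedOnDivisor C l Γ
  picard : ∀ (X Y : 𝒱.Obj) (i l : ℤ) (Γ : C.A (X.prod Y)) (z : C.A X), C.Deg l Γ →
    i + l = X.dim + 1 → Kills H Γ (2 * i - 1) → C.Deg i z → H.cl z = 0 → C.act Γ z = 0

variable {H : WeilTheoryData.{u, v, 0} C ℂ}

/-- The classical facts on smooth projective complex varieties which are used: Hodge theory with
the theorem of Lefschetz on `(1,1)`-classes, the transcendental projectors of surfaces (Murre;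
Kahn, Murre and Pedrini), and the facts `HasCycleFacts` on cycles. -/
structure HasZeroCycleTheory (D : HodgeData H) : Prop where
  hodge : D.IsHodge
  functorial : D.IsFunctorial
  transcendental : ∀ S : 𝒱.Obj, S.dim = 2 → ∃ t : C.A (S.prod S), IsTranscendental H t
  cycles : HasCycleFacts H

/-- The curve `B` has genus `g`: the self-intersection number of the diagonal of `B × B` is
`2 - 2 g`. -/
def IsCurveOfGenus (C : TheoryData.{u, v, 0} 𝒱 ℚ) (B : 𝒱.Obj) (g : ℕ) : Prop :=
  B.dim = 1 ∧ HasDegree C (C.up (Obj.lift (𝟙 B) (𝟙 B)) (dg C B)) (2 - 2 * g)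

end Pool.Agent.TH85.ZC
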