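import Pool.Agent.TH85.ZC.Defs
import Pool.Agent.TH133.Sq
import Pool.Agent.TH133.Pg

/-!
# Exterior products of zero-cycles: the key lemmas
-/

open CategoryTheory AlgebraicGeometry

universe u v w

namespace Pool.Agent.TH85.ZC

open Pool.Agent.H914 Pool.Agent.H914.VarClass Pool.Agent.H914.VarClass.Obj Pool.Agent.W492.BB
  Pool.Agent.W550.Corr Pool.Agent.TH133

set_option linter.unusedSectionVars false

variable {k : Type u} [Field k] {𝒱 : VarClass k}

section chow

variable {C : TheoryData.{u, v, 0} 𝒱 ℚ} [hC : IsChowProj C] {X Y Z W P S T : 𝒱.Obj}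

include hC

lemma comp_graph (Γ : C.A (X.prod Y)) (f : Y ⟶ Z) :
    C.comp Γ (C.graph f) = C.push (prodMap (𝟙 X) f) Γ := by
  rw [comp_eq_extR, extR_graph]

lemma cograph_comp (f : X ⟶ Y) (W : C.A (X.prod Z)) :
    C.comp (C.cograph f) W = C.push (prodMap f (𝟙 Z)) W := by
  have h : tp C (C.comp (C.cograph f) W) = tp C (C.push (prodMap f (𝟙 Z)) W) := by
    rw [tp_comp C (ch_comm C), tp_cograph, comp_graph, tp_eq_push, tp_eq_push, ← C.push_comp,
      ← C.push_comp]
    congr 2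
    apply prod_ext <;> simp [sw, prodMap, comp_lift]
  rw [← tp_tp C (C.comp (C.cograph f) W), h, tp_tp]

/-- The transposed form of the theorem of Bloch and Srinivas. -/
lemma supported_tp {l : ℤ} {Γ : C.A (X.prod Y)} (h : SupportedOnDivisor C l (tp C Γ)) :
    ∃ (m : ℕ) (D : Fin m → 𝒱.Obj) (f : ∀ j, D j ⟶ Y) (W : ∀ j, C.A (X.prod (D j))),
      (∀ j, (D j).dim + 1 = Y.dim ∧ W j ∈ C.gr (X.prod (D j)) (l - 1)) ∧
        Γ = ∑ j, C.comp (W j) (C.graph (f j)) := by
  obtain ⟨m, D, f, W, hW, hΓ⟩ := h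
  refine ⟨m, D, f, fun j => tp C (W j), fun j => ⟨(hW j).1, tp_mem C (hW j).2⟩, ?_⟩
  rw [← tp_tp C Γ, hΓ, tp_sum]
  refine Finset.sum_congr rfl fun j _ => ?_
  change tp C (C.push (prodMap (f j) (𝟙 X)) (W j)) = _
  rw [← cograph_comp, tp_comp C (ch_comm C), tp_cograph]

lemma pull_snd_injective {y : C.A Y} (h : C.ext (1 : C.A X) y = 0) : y = 0 := by
  obtain ⟨e, he, he1, he2⟩ := exists_deg_one C X
  rw [TheoryData.ext, map_one, one_mul] at h
  have h1 : C.push (snd X Y) (C.pull (fst X Y) e * C.pull (snd X Y) y) = y := by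
    rw [C.proj_right, he2, one_mul]
  rw [h, mul_zero, map_zero] at h1
  exact h1.symm

end chow

section weil

variable {C : TheoryData.{u, v, 0} 𝒱 ℚ} [hC : IsChowProj C] {K : Type w} [Field K]
  {H : WeilTheoryData.{u, v, w} C K} [hH : IsWeilProj H] {X Y Z W P S T : 𝒱.Obj}

include hC hH

/-- If the transpose of `Γ` acts as zero on zero-cycles, `Δ` kills `H^(2i-1)(X)`, and `Γ_*` maps
`CH^i(X)` to cycles of codimension two, then `Γ_* Δ_* z = 0` for homologically trivial `z`. -/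
lemma act_act_zero (hF : HasCycleFacts H) {i l : ℤ} {Γ : C.A (X.prod Y)} {Δ : C.A (X.prod X)}
    {z : C.A X} (hΓ : Γ ∈ C.gr (X.prod Y) l) (hil : i + l = X.dim + 2)
    (hΓ0 : ∀ y : C.A Y, C.Deg Y.dim y → C.act (tp C Γ) y = 0)
    (hΔ : Δ ∈ C.gr (X.prod X) X.dim) (hΔ0 : Kills H Δ (2 * i - 1)) (hz : z ∈ C.gr X i)
    (hz0 : H.cl z = 0) : C.act Γ (C.act Δ z) = 0 := by
  obtain ⟨m, D, f, W, hW, hsum⟩ := supported_tp (hF.blochSrinivas Y X l (tp C Γ) (tp_mem C hΓ) hΓ0)
  rw [hsum, act_sum]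
  refine Finset.sum_eq_zero fun j _ => ?_
  rw [C.act_comp, ← C.act_comp Δ]
  have h1 : C.act (C.comp Δ (W j)) z = 0 := by
    refine hF.picard X (D j) i (l - 1) _ z ?_ (by omega) ?_ hz hz0
    · have h2 := comp_mem C (X := X) (Y := X) (Z := D j) (e := 0) (e' := l - 1 - X.dim) (Γ := Δ)
        (Δ := W j) (by rwa [add_zero]) (by
          have e : (X.dim : ℤ) + (l - 1 - X.dim) = l - 1 := by ring
          rw [e]; exact (hW j).2)
      have e : (X.dim : ℤ) + (0 + (l - 1 - X.dim)) = l - 1 := by ring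
      rw [e] at h2
      exact h2
    · intro a ha
      rw [actH_comp, hΔ0 a ha]
      exact TheoryData.act_map_zero _ _
  rw [h1]
  exact TheoryData.act_map_zero _ _

/-- A family of cycles of codimension two is killed by the square of a homologically trivial
correspondence followed by one whose transpose acts as zero on zero-cycles. -/
lemma comp_comp_zero (hF : HasCycleFacts H) {i l : ℤ} {Γ : C.A (X.prod Y)} {Δ : C.A (X.prod X)}
    {x : C.A (P.prod X)} (hΓ : Γ ∈ C.gr (X.prod Y) l) (hil : i + l = X.dim + 2)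
    (hΓ0 : ∀ y : C.A Y, C.Deg Y.dim y → C.act (tp C Γ) y = 0)
    (hΔ : Δ ∈ C.gr (X.prod X) X.dim) (hΔ0 : H.cl Δ = 0) (hx : x ∈ C.gr (P.prod X) i) :
    C.comp (C.comp (C.comp x Δ) Δ) Γ = 0 := by
  obtain ⟨m, D, f, W, hW, hsum⟩ := supported_tp (hF.blochSrinivas Y X l (tp C Γ) (tp_mem C hΓ) hΓ0)
  rw [hsum, comp_sum]
  refine Finset.sum_eq_zero fun j _ => ?_
  rw [← comp_assoc, comp_assoc C (C.comp x Δ) Δ (W j)]
  have hxΔ : C.comp x Δ ∈ C.gr (P.prod X) i := by
    have h2 := comp_mem C (X := P) (Y := X) (Z := X) (e := i - P.dim) (e' := 0) (Γ := x) (Δ := Δ)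
      (by
        have e : (P.dim : ℤ) + (i - P.dim) = i := by ring
        rwa [e]) (by rwa [add_zero])
    have e : (P.dim : ℤ) + (i - P.dim + 0) = i := by ring
    rwa [e] at h2
  have hxΔ0 : H.cl (C.comp x Δ) = 0 := by
    rw [cl_comp, hΔ0]
    exact comp_zero H.toTheoryData _
  have hΔW : C.comp Δ (W j) ∈ C.gr (X.prod (D j)) (l - 1) := by
    have h2 := comp_mem C (X := X) (Y := X) (Z := D j) (e := 0) (e' := l - 1 - X.dim) (Γ := Δ)
      (Δ := W j) (by rwa [add_zero]) (by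
        have e : (X.dim : ℤ) + (l - 1 - X.dim) = l - 1 := by ring
        rw [e]; exact (hW j).2)
    have e : (X.dim : ℤ) + (0 + (l - 1 - X.dim)) = l - 1 := by ring
    rw [e] at h2
    exact h2
  have hΔW0 : H.cl (C.comp Δ (W j)) = 0 := by
    rw [cl_comp, hΔ0]
    exact zero_comp H.toTheoryData _
  have h1 : C.comp (C.comp x Δ) (C.comp Δ (W j)) = 0 := by
    have h3 : C.act (tens C (dg C P) (C.comp Δ (W j))) (C.comp x Δ) =
        C.comp (C.comp x Δ) (C.comp Δ (W j)) := by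
      rw [act_tens C (ch_comm C), tp_dg, dg_comp]
    rw [← h3]
    refine hF.picard (P.prod X) (P.prod (D j)) i (P.dim + (l - 1)) _ _
      (tens_mem C (dg_mem C P) hΔW) (by rw [dim_prod]; push_cast; omega) ?_ hxΔ hxΔ0
    intro a _
    rw [cl_tens, hΔW0, tens, map_zero, mul_zero]
    exact TheoryData.act_zero _ _
  rw [h1]
  exact zero_comp C _

/-- Correspondences of degree zero which kill `H^3` map homologically trivial zero-cycles of a
surface to the kernel of the Albanese map. -/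
lemma albaneseKer_of_kills (hF : HasCycleFacts H) {γ : C.A (S.prod T)} (hS : S.dim = 2)
    (hT : T.dim = 2) (hγ : γ ∈ C.gr (S.prod T) 2) (hγ0 : Kills H γ 3) {x : C.A S}
    (hx : HomTrivial H 2 x) : AlbaneseKer H (C.act γ x) := by
  have hγ' : γ ∈ C.gr (S.prod T) (S.dim + 0) := by rw [hS]; exact_mod_cast hγ
  refine ⟨⟨?_, ?_⟩, fun B G hB hG => ?_⟩
  · have h := act_mem' C hγ' hx.1
    rw [add_zero, ← hT] at h
    exact_mod_cast h
  · rw [cl_act H, hx.2]
    exact TheoryData.act_map_zero _ _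
  · rw [← C.act_comp]
    refine hF.picard S B 2 1 _ x ?_ (by rw [hS]; norm_num) ?_ (by exact_mod_cast hx.1) hx.2
    · have h1 : G ∈ C.gr (T.prod B) (T.dim + (-1)) := by
        rw [hT]; exact_mod_cast hG
      have h2 := comp_mem C hγ' h1
      rw [hS] at h2
      exact_mod_cast h2
    · intro a ha
      rw [actH_comp, hγ0 a (by exact_mod_cast ha)]
      exact TheoryData.act_map_zero _ _

end weil

end Pool.Agent.TH85.ZC
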