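import Pool.Agent.TH85.ZC.Curve

/-!
# Exterior products of zero-cycles on surfaces: the theorems
-/

open CategoryTheory AlgebraicGeometry

universe u v w

namespace Pool.Agent.TH85.ZC

open Pool.Agent.H914 Pool.Agent.H914.VarClass Pool.Agent.H914.VarClass.Obj Pool.Agent.W492.BB
  Pool.Agent.W550.Corr Pool.Agent.TH133

set_option linter.unusedSectionVars false

variable {k : Type u} [Field k] {𝒱 : VarClass k} {C : TheoryData.{u, v, 0} 𝒱 ℚ}
  [hC : IsChowProj C] {H : WeilTheoryData.{u, v, 0} C ℂ} [hH : IsWeilProj H] {S T B : 𝒱.Obj}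
  {D : HodgeData H}

include hC hH

/-- Cycles on which the exterior product with the Albanese kernel of `T` vanishes are killed by the
correspondences which act as zero on the holomorphic two-forms. -/
theorem act_zero_of_products (hD : HasZeroCycleTheory D) (hS : S.dim = 2) (hT : T.dim = 2)
    {a : C.A S} (ha : AlbaneseKer H a) (h : ∀ b : C.A T, AlbaneseKer H b → C.ext a b = 0)
    {Z : C.A (S.prod T)} (hZ : C.Deg 2 Z) (hZ0 : D.KillsHolomorphic Z 2) : C.act Z a = 0 := by
  obtain ⟨s, hs⟩ := hD.transcendental S hS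
  obtain ⟨t, ht⟩ := hD.transcendental T hT
  rw [← act_trans hs ht hS hT ha hZ]
  exact act_zero_of_ext hD.cycles hs ht hS hT ha h (trans_deg hs ht hS hT hZ)
    (cl_trans_zero hD.hodge hD.functorial hs ht hT hZ hZ0)

lemma tp_trans {t : C.A (S.prod S)} (ht : IsTranscendental H t) (Z : C.A (S.prod S)) :
    tp C (C.comp (C.comp t Z) t) = C.comp (C.comp t (tp C Z)) t := by
  rw [tp_comp C (ch_comm C), tp_comp C (ch_comm C), ht.symm, comp_assoc]

/-- Cycles `a` with `a × b = ε b × a` for all `b` in the Albanese kernel. -/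
theorem act_eq_of_products (hD : HasZeroCycleTheory D) (hS : S.dim = 2) {a : C.A S}
    (ha : AlbaneseKer H a) {ε : ℚ}
    (h : ∀ b : C.A S, AlbaneseKer H b → C.ext a b = ε • C.ext b a)
    {Z : C.A (S.prod S)} (hZ : C.Deg 2 Z) (hZ0 : D.KillsHolomorphic Z 2) :
    C.act Z a = ε • C.act (tp C Z) a := by
  obtain ⟨t, ht⟩ := hD.transcendental S hS
  have hZ' : C.Deg 2 (tp C Z) := tp_mem C hZ
  rw [← act_trans ht ht hS hS ha hZ, ← act_trans ht ht hS hS ha hZ', ← tp_trans ht]
  exact act_eq_of_ext hD.cycles ht hS ha h (trans_deg ht ht hS hS hZ)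
    (cl_trans_zero hD.hodge hD.functorial ht ht hS hZ hZ0)

/-- The symmetrized exterior product on a surface with `H^{2,0} = 0`. -/
theorem eq_zero_of_symm (hD : HasZeroCycleTheory D) (hS : D.IsGenusZero S) {a : C.A S}
    (ha : AlbaneseKer H a)
    (h : ∀ b : C.A S, AlbaneseKer H b → C.ext a b + C.ext b a = 0) : a = 0 := by
  have hdg : C.Deg 2 (dg C S) := by
    have := dg_mem C S
    rw [hS.dim] at this
    exact_mod_cast this
  have h1 := act_eq_of_products hD hS.dim ha (ε := -1) (fun b hb => by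
    rw [neg_smul, one_smul]
    exact eq_neg_of_add_eq_zero_left (h b hb)) (Z := dg C S) hdg (fun c hc => by
      rw [hS.genus c hc]
      exact TheoryData.act_map_zero _ _)
  rw [tp_dg, act_dg, neg_smul, one_smul] at h1
  have h2 : (2 : ℚ) • a = 0 := by
    rw [two_smul]
    nth_rewrite 2 [h1]
    rw [add_neg_cancel]
  exact (smul_eq_zero.1 h2).resolve_left (by norm_num)

omit hH in
lemma ext_add_left' {X Y : 𝒱.Obj} (a a' : C.A X) (b : C.A Y) :
    C.ext (a + a') b = C.ext a b + C.ext a' b := by
  rw [TheoryData.ext, map_add, add_mul]; rfl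

omit hH in
lemma ext_add_right' {X Y : 𝒱.Obj} (a : C.A X) (b b' : C.A Y) :
    C.ext a (b + b') = C.ext a b + C.ext a b' := by
  rw [TheoryData.ext, map_add, mul_add]; rfl

lemma albaneseKer_add {a b : C.A S} (ha : AlbaneseKer H a) (hb : AlbaneseKer H b) :
    AlbaneseKer H (a + b) := by
  refine ⟨⟨Submodule.add_mem _ ha.1.1 hb.1.1, ?_⟩, fun B Γ hB hΓ => ?_⟩
  · rw [map_add, ha.1.2, hb.1.2, add_zero]
  · rw [act_map_add, ha.2 B Γ hB hΓ, hb.2 B Γ hB hΓ, add_zero]

/-- The squares of the elements of the Albanese kernel. -/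
theorem albaneseInjective_iff_squares (hD : HasZeroCycleTheory D) (hS : D.IsGenusZero S) :
    AlbaneseInjective H S ↔ ∀ a : C.A S, AlbaneseKer H a → C.ext a a = 0 := by
  constructor
  · intro h a ha
    rw [h a ha, TheoryData.ext_zero_left]
  · intro h a ha
    refine eq_zero_of_symm hD hS ha fun b hb => ?_
    have h1 := h (a + b) (albaneseKer_add ha hb)
    rw [ext_add_left', ext_add_right', ext_add_right', h a ha, h b hb, zero_add, add_zero] at h1
    exact h1

/-- Products with the zero-cycles of degree zero of a curve. -/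
theorem albaneseInjective_iff_curve (hD : HasZeroCycleTheory D)
    (hS : D.IsGenusZero S) {g : ℕ} (hg : 0 < g) (hB : IsCurveOfGenus C B g) :
    AlbaneseInjective H S ↔ ∀ (a : C.A S) (c : C.A B), AlbaneseKer H a → C.Deg 1 c →
      HasDegree C c 0 → C.ext a c = 0 := by
  constructor
  · intro h a c ha _ _
    rw [h a ha, TheoryData.ext_zero_left]
  · exact albaneseInjective_of_curve hD hS hg hB

section commuting

variable (H) in
/-- `a` is in the Albanese kernel of the surface `S` and `a × b = b × a` for all `b` in this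
kernel. -/
def Commutes (a : C.A S) : Prop :=
  AlbaneseKer H a ∧ ∀ b : C.A S, AlbaneseKer H b → C.ext a b = C.ext b a

omit hH in
lemma act_tens_dg_left (P : C.A (S.prod S)) (a b : C.A S) :
    C.act (tens C P (dg C S)) (C.ext a b) = C.ext (C.act P a) b := by
  rw [act_tens_ext', act_dg]

omit hH in
lemma act_tens_dg_right (P : C.A (S.prod S)) (a b : C.A S) :
    C.act (tens C (dg C S) P) (C.ext a b) = C.ext a (C.act P b) := by
  rw [act_tens_ext', act_dg]

/-- The cycles which commute with the Albanese kernel are stable under correspondences. -/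
lemma Commutes.act (hS : S.dim = 2) {a : C.A S} (ha : Commutes H a) {P : C.A (S.prod S)}
    (hP : C.Deg 2 P) : Commutes H (C.act P a) := by
  have hP' : C.Deg S.dim P := by rw [hS]; exact_mod_cast hP
  refine ⟨albaneseKer_act rfl hP' ha.1, fun b hb => ?_⟩
  have hPb : AlbaneseKer H (C.act P b) := albaneseKer_act rfl hP' hb
  rw [← act_tens_dg_left, ha.2 b hb, act_tens_dg_left, ← ha.2 _ hPb, ← act_tens_dg_right,
    ha.2 b hb, act_tens_dg_right]

/-- The correspondences acting as zero on holomorphic two-forms act symmetrically on the commuting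
cycles. -/
lemma Commutes.act_tp (hD : HasZeroCycleTheory D) (hS : S.dim = 2) {a : C.A S}
    (ha : Commutes H a) {Z : C.A (S.prod S)} (hZ : C.Deg 2 Z) (hZ0 : D.KillsHolomorphic Z 2) :
    C.act Z a = C.act (tp C Z) a := by
  have h1 := act_eq_of_products hD hS ha.1 (ε := 1) (fun b hb => by
    rw [one_smul]; exact ha.2 b hb) hZ hZ0
  rwa [one_smul] at h1

/-- Composition with an arbitrary correspondence. -/
lemma Commutes.act_act (hD : HasZeroCycleTheory D) (hS : S.dim = 2) {a : C.A S}
    (ha : Commutes H a) {Z P : C.A (S.prod S)} (hZ : C.Deg 2 Z) (hP : C.Deg 2 P)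
    (hZ0 : D.KillsHolomorphic Z 2) :
    C.act P (C.act Z a) = C.act Z (C.act (tp C P) a) := by
  have hZP : C.Deg 2 (C.comp Z P) := by
    have h1 : Z ∈ C.gr (S.prod S) (S.dim + 0) := by rw [hS]; exact_mod_cast hZ
    have h2 : P ∈ C.gr (S.prod S) (S.dim + 0) := by rw [hS]; exact_mod_cast hP
    have h3 := comp_mem C h1 h2
    rw [hS] at h3
    exact_mod_cast h3
  have hZP0 : D.KillsHolomorphic (C.comp Z P) 2 := by
    intro c hc
    have h1 := hD.functorial.hodge S S 2 (tp C P) (tp_mem C hP) 2 0 c hc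
    rw [hS] at h1
    norm_num at h1
    have h2 := hZ0 _ h1
    change H.act (H.cl (tp C (C.comp Z P))) c = 0
    rw [tp_comp C (ch_comm C), actH_comp]
    exact h2
  have h1 := ha.act_tp hD hS hZP hZP0
  rw [C.act_comp, tp_comp C (ch_comm C), C.act_comp] at h1
  rw [h1, ← (ha.act hS (tp_mem C hP)).act_tp hD hS hZ hZ0]

/-- Automorphisms which act as the identity on holomorphic two-forms act as involutions on the
commuting cycles. -/
lemma Commutes.push_push (hD : HasZeroCycleTheory D) (hS : S.dim = 2) {a : C.A S}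
    (ha : Commutes H a) {f g : S ⟶ S} (hfg : f ≫ g = 𝟙 S) (hgf : g ≫ f = 𝟙 S)
    (hf : D.KillsHolomorphic (C.graph f - dg C S) 2) : C.push f (C.push f a) = a := by
  have hm : C.Deg 2 (C.graph f - dg C S) := by
    have h1 := graph_mem (C := C) f
    have h2 := dg_mem C S
    rw [hS] at h1 h2
    exact Submodule.sub_mem _ (by exact_mod_cast h1) (by exact_mod_cast h2)
  have h1 := ha.act_tp hD hS hm hf
  rw [tp_sub, tp_graph, tp_dg, C.act_sub, C.act_sub, C.act_graph, C.act_cograph, act_dg,
    sub_left_inj, pull_iso C f g hfg hgf] at h1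
  rw [h1, ← C.push_comp, hgf, C.push_id]

end commuting

end Pool.Agent.TH85.ZC
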