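import Pool.Agent.TH85.ZC.Key

/-!
# Exterior products of zero-cycles on surfaces
-/

open CategoryTheory AlgebraicGeometry

universe u v w

namespace Pool.Agent.TH85.ZC

open Pool.Agent.H914 Pool.Agent.H914.VarClass Pool.Agent.H914.VarClass.Obj Pool.Agent.W492.BB
  Pool.Agent.W550.Corr Pool.Agent.TH133

set_option linter.unusedSectionVars false

variable {k : Type u} [Field k] {𝒱 : VarClass k}

section chow

variable {C : TheoryData.{u, v, 0} 𝒱 ℚ} [hC : IsChowProj C] {X Y Z W P S T : 𝒱.Obj}

include hC

lemma act_map_span {Γ : C.A (X.prod Z)} {p : C.A X → Prop} {y : C.A X}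
    (hy : y ∈ Submodule.span ℚ {c | p c}) (h : ∀ c, p c → C.act Γ c = 0) : C.act Γ y = 0 := by
  have h1 : Submodule.span ℚ {c | p c} ≤ LinearMap.ker (C.actL Γ) := by
    rw [Submodule.span_le]
    intro c hc
    exact h c hc
  exact h1 hy

/-- The value of `(a × 1) ⊗ t` on a cycle `z` of codimension two on `S × T`. -/
lemma act_tens_ext_one (a : C.A S) (t : C.A (T.prod T)) (z : C.A (S.prod T)) :
    C.act (tens C (C.ext a (1 : C.A S)) t) z = C.ext 1 (C.act t (C.act z a)) := by
  rw [act_tens C (ch_comm C), tp_ext, ext_comp', ext_comp']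

end chow

section weil

variable {C : TheoryData.{u, v, 0} 𝒱 ℚ} [hC : IsChowProj C] {H : WeilTheoryData.{u, v, 0} C ℂ}
  [hH : IsWeilProj H] {X Y Z W U S T : 𝒱.Obj}

include hC hH

lemma trans_mem {t : C.A (S.prod S)} (ht : IsTranscendental H t) (hS : S.dim = 2) :
    t ∈ C.gr (S.prod S) S.dim := by
  rw [hS]; exact_mod_cast ht.deg

lemma trans_mem_two {t : C.A (S.prod S)} (ht : IsTranscendental H t) (hS : S.dim = 2) :
    C.comp t t ∈ C.gr (S.prod S) S.dim := comp_mem0 C (trans_mem ht hS) (trans_mem ht hS)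

lemma trans_tp {t : C.A (S.prod S)} (ht : IsTranscendental H t) :
    tp C (C.comp t t) = C.comp t t := by
  rw [tp_comp C (ch_comm C), ht.symm]

lemma trans_two_act {t : C.A (S.prod S)} (ht : IsTranscendental H t) {x : C.A S}
    (hx : AlbaneseKer H x) : C.act (C.comp t t) x = x := by
  rw [C.act_comp, ht.albanese x hx, ht.albanese x hx]

/-- The square of a transcendental projector maps all zero-cycles to the kernel of the Albanese
map. -/
lemma trans_two_mem (hF : HasCycleFacts H) {t : C.A (S.prod S)} (ht : IsTranscendental H t)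
    (hS : S.dim = 2) {x : C.A S} (hx : C.Deg S.dim x) : AlbaneseKer H (C.act (C.comp t t) x) := by
  rw [C.act_comp]
  refine albaneseKer_of_kills hF hS hS (by exact_mod_cast ht.deg)
    (fun a ha => ht.kills 3 a (by norm_num) ha) ⟨?_, ?_⟩
  · have h := act_mem0 C (trans_mem ht hS) hx
    rw [hS] at h
    exact_mod_cast h
  · rw [cl_act H]
    refine ht.kills 4 _ (by norm_num) ?_
    have h := H.cl_mem (show x ∈ C.gr S S.dim from hx)
    rw [hS] at h
    norm_num at h
    exact h

/-- The product of two transcendental projectors kills `H^3`. -/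
lemma kills_three {s : C.A (S.prod S)} {t : C.A (T.prod T)} (hs : IsTranscendental H s)
    (ht : IsTranscendental H t) : Kills H (tens C s t) (2 * 2 - 1) := by
  intro c hc
  have e : (2 * 2 - 1 : ℤ) = 3 := by norm_num
  rw [e] at hc
  have h1 := H.kunneth S T 3 hc
  clear hc
  induction h1 using Submodule.span_induction with
  | mem x hx =>
    obtain ⟨l, a, b, ha, hb, rfl⟩ := hx
    have e0 : H.pull (fst S T) a * H.pull (snd S T) b = H.ext a b := rfl
    rw [e0, actH_tens_ext]
    by_cases hl : l = 2
    · have h2 : H.act (H.cl t) b = 0 := ht.kills (3 - l) b (by omega) hb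
      rw [h2, TheoryData.ext_zero_right]
    · have h2 : H.act (H.cl s) a = 0 := hs.kills l a hl ha
      rw [h2, TheoryData.ext_zero_left]
  | zero => exact TheoryData.act_map_zero _ _
  | add x y _ _ hx hy => rw [act_map_add, hx, hy, add_zero]
  | smul r x _ hx => rw [act_map_smul, hx, smul_zero]

lemma act_ext_one {a : C.A S} (x : C.A S) (hx : C.Deg S.dim x) :
    ∃ q : ℚ, C.act (C.ext (1 : C.A S) a) x = q • a := by
  obtain ⟨q, hq⟩ := exists_hasDegree (x := x) hx
  exact ⟨q, act_ext' (by rwa [one_mul])⟩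

/-- A zero-cycle `a` in the kernel of the Albanese map of the surface `S` with `a × b = 0` for all
`b` in the kernel of the Albanese map of the surface `T` is killed by the homologically trivial
correspondences. -/
theorem act_zero_of_ext (hF : HasCycleFacts H) {s : C.A (S.prod S)} {t : C.A (T.prod T)}
    (hs : IsTranscendental H s) (ht : IsTranscendental H t) (hS : S.dim = 2) (hT : T.dim = 2)
    {a : C.A S} (ha : AlbaneseKer H a) (h : ∀ b : C.A T, AlbaneseKer H b → C.ext a b = 0)
    {W : C.A (S.prod T)} (hW : C.Deg 2 W) (hW0 : H.cl W = 0) : C.act W a = 0 := by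
  have hWa : AlbaneseKer H (C.act W a) :=
    albaneseKer_act (by rw [hS, hT]) (by rw [hS]; exact_mod_cast hW) ha
  have hΓ : tens C (C.ext a (1 : C.A S)) (C.comp t t) ∈
      C.gr ((S.prod T).prod (S.prod T)) 4 := by
    have h1 := tens_mem C (ext_mem' ha.1.1 (C.one_mem S)) (trans_mem_two ht hT)
    rw [hS, hT] at h1
    norm_num at h1
    exact h1
  have hΓ0 : ∀ y : C.A (S.prod T), C.Deg (S.prod T).dim y →
      C.act (tp C (tens C (C.ext a (1 : C.A S)) (C.comp t t))) y = 0 := by
    intro y hy
    refine act_map_span (hF.product S T y hy) ?_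
    rintro c ⟨x, x', hx, hx', rfl⟩
    rw [tp_tens, tp_ext, trans_tp ht, act_tens_ext C _ _ (fun f c => ch_comm C _ _)]
    obtain ⟨q, hq⟩ := act_ext_one (H := H) (a := a) x hx
    rw [hq]
    have h1 := h _ (trans_two_mem hF ht hT hx')
    rw [TheoryData.ext, map_smul, smul_mul_assoc]
    change q • C.ext a _ = 0
    rw [h1, smul_zero]
  have h1 := act_act_zero hF hΓ (i := 2) (Δ := tens C s t) (z := W)
    (by rw [dim_prod, hS, hT]; norm_num) hΓ0
    (by
      have h2 := tens_mem C (trans_mem hs hS) (trans_mem ht hT)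
      rw [dim_prod]
      exact_mod_cast h2)
    (kills_three hs ht) (by exact_mod_cast hW) hW0
  rw [act_tens_ext_one, act_tens C (ch_comm C), C.act_comp (C.comp _ _), C.act_comp (tp C s),
    hs.symm, hs.albanese a ha, ht.albanese _ hWa, trans_two_act ht hWa] at h1
  exact pull_snd_injective h1

/-- A zero-cycle `a` in the kernel of the Albanese map of the surface `S` with `a × b = ε b × a` for
all `b` in this kernel satisfies `W_* a = ε W^t_* a` for all homologically trivial
self-correspondences. -/
theorem act_eq_of_ext (hF : HasCycleFacts H) {t : C.A (S.prod S)} (ht : IsTranscendental H t)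
    (hS : S.dim = 2) {a : C.A S} (ha : AlbaneseKer H a) {ε : ℚ}
    (h : ∀ b : C.A S, AlbaneseKer H b → C.ext a b = ε • C.ext b a)
    {W : C.A (S.prod S)} (hW : C.Deg 2 W) (hW0 : H.cl W = 0) :
    C.act W a = ε • C.act (tp C W) a := by
  have hWa : AlbaneseKer H (C.act W a) :=
    albaneseKer_act rfl (by rw [hS]; exact_mod_cast hW) ha
  have hWa' : AlbaneseKer H (C.act (tp C W) a) :=
    albaneseKer_act rfl (by rw [hS]; exact_mod_cast tp_mem C hW) ha
  set G : C.A ((S.prod S).prod (S.prod S)) := tens C (C.ext a (1 : C.A S)) (C.comp t t) with hG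
  have hGm : G ∈ C.gr ((S.prod S).prod (S.prod S)) 4 := by
    have h1 := tens_mem C (ext_mem' ha.1.1 (C.one_mem S)) (trans_mem_two ht hS)
    rw [hS] at h1
    norm_num at h1
    exact h1
  have hGm' : C.comp (C.cograph (sw S S)) G ∈ C.gr ((S.prod S).prod (S.prod S)) 4 := by
    have h1 : C.cograph (sw S S) ∈ C.gr ((S.prod S).prod (S.prod S)) ((S.prod S).dim + 0) := by
      rw [add_zero]; exact cograph_mem _
    have h2 : G ∈ C.gr ((S.prod S).prod (S.prod S)) ((S.prod S).dim + 0) := by
      rw [dim_prod, hS]; norm_num; exact hGm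
    have h3 := comp_mem C h1 h2
    rw [dim_prod, hS] at h3
    norm_num at h3
    exact h3
  have hΓ : G - ε • C.comp (C.cograph (sw S S)) G ∈ C.gr ((S.prod S).prod (S.prod S)) 4 :=
    Submodule.sub_mem _ hGm (Submodule.smul_mem _ _ hGm')
  have hpush : ∀ u v : C.A S, C.push (sw S S) (C.ext u v) = C.ext v u := by
    intro u v
    rw [← tp_eq_push, tp_ext]
  have htG : tp C G = tens C (C.ext (1 : C.A S) a) (C.comp t t) := by
    rw [hG, tp_tens, tp_ext, trans_tp ht]
  have hΓ0 : ∀ y : C.A (S.prod S), C.Deg (S.prod S).dim y →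
      C.act (tp C (G - ε • C.comp (C.cograph (sw S S)) G)) y = 0 := by
    intro y hy
    refine act_map_span (hF.product S S y hy) ?_
    rintro c ⟨x, x', hx, hx', rfl⟩
    rw [tp_sub, tp_smul, tp_comp C (ch_comm C), tp_cograph, C.act_sub]
    have e1 : C.act (ε • C.comp (tp C G) (C.graph (sw S S))) (C.ext x x') =
        ε • C.act (C.comp (tp C G) (C.graph (sw S S))) (C.ext x x') := by
      have := LinearMap.map_smul₂ (actB C) ε (C.comp (tp C G) (C.graph (sw S S))) (C.ext x x')
      exact this
    rw [e1, C.act_comp, C.act_graph, htG, act_tens_ext C _ _ (fun f c => ch_comm C _ _), hpush]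
    obtain ⟨q, hq⟩ := act_ext_one (H := H) (a := a) x hx
    rw [hq]
    have h1 := h _ (trans_two_mem hF ht hS hx')
    have e2 : C.ext (q • a) (C.act (C.comp t t) x') = q • C.ext a (C.act (C.comp t t) x') := by
      rw [TheoryData.ext, map_smul, smul_mul_assoc]; rfl
    have e3 : C.ext (C.act (C.comp t t) x') (q • a) = q • C.ext (C.act (C.comp t t) x') a := by
      rw [TheoryData.ext, map_smul, mul_smul_comm]; rfl
    rw [e2, e3, h1, smul_comm, sub_self]
  have h1 := act_act_zero hF hΓ (i := 2) (Δ := tens C t t) (z := W)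
    (by rw [dim_prod, hS]; norm_num) hΓ0
    (by
      have h2 := tens_mem C (trans_mem ht hS) (trans_mem ht hS)
      rw [dim_prod]
      exact_mod_cast h2)
    (kills_three ht ht) (by exact_mod_cast hW) hW0
  have e1 : ∀ z, C.act (G - ε • C.comp (C.cograph (sw S S)) G) z =
      C.act G z - ε • C.act G (tp C z) := by
    intro z
    rw [C.act_sub]
    have e1 : C.act (ε • C.comp (C.cograph (sw S S)) G) z =
        ε • C.act (C.comp (C.cograph (sw S S)) G) z := by
      have := LinearMap.map_smul₂ (actB C) ε (C.comp (C.cograph (sw S S)) G) z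
      exact this
    rw [e1, C.act_comp, C.act_cograph]
    rfl
  have e2 : C.act (tens C t t) W = C.comp (C.comp t W) t := by
    rw [act_tens C (ch_comm C), ht.symm]
  have e3 : tp C (C.comp (C.comp t W) t) = C.comp (C.comp t (tp C W)) t := by
    rw [tp_comp C (ch_comm C), tp_comp C (ch_comm C), ht.symm, comp_assoc]
  have e4 : C.act (C.comp t t) (C.act (C.comp (C.comp t W) t) a) = C.act W a := by
    rw [C.act_comp (C.comp t W) t, C.act_comp t W, ht.albanese a ha, ht.albanese _ hWa,
      trans_two_act ht hWa]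
  have e5 : C.act (C.comp t t) (C.act (C.comp (C.comp t (tp C W)) t) a) = C.act (tp C W) a := by
    rw [C.act_comp (C.comp t (tp C W)) t, C.act_comp t (tp C W), ht.albanese a ha,
      ht.albanese _ hWa', trans_two_act ht hWa']
  rw [e1, e2, e3, hG, act_tens_ext_one, act_tens_ext_one, e4, e5] at h1
  have h2 : C.ext (1 : C.A S) (C.act W a - ε • C.act (tp C W) a) = 0 := by
    rw [TheoryData.ext, map_sub, map_smul, mul_sub, mul_smul_comm]
    exact h1
  exact sub_eq_zero.1 (pull_snd_injective h2)

/-- The transcendental part of a correspondence. -/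
lemma act_trans {s : C.A (S.prod S)} {t : C.A (T.prod T)}
    (hs : IsTranscendental H s) (ht : IsTranscendental H t) (hS : S.dim = 2) (hT : T.dim = 2)
    {a : C.A S} (ha : AlbaneseKer H a) {Z : C.A (S.prod T)} (hZ : C.Deg 2 Z) :
    C.act (C.comp (C.comp s Z) t) a = C.act Z a := by
  have hZa : AlbaneseKer H (C.act Z a) :=
    albaneseKer_act (by rw [hS, hT]) (by rw [hS]; exact_mod_cast hZ) ha
  rw [C.act_comp, C.act_comp, hs.albanese a ha, ht.albanese _ hZa]

lemma trans_deg {s : C.A (S.prod S)} {t : C.A (T.prod T)}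
    (hs : IsTranscendental H s) (ht : IsTranscendental H t) (hS : S.dim = 2) (hT : T.dim = 2)
    {Z : C.A (S.prod T)} (hZ : C.Deg 2 Z) : C.Deg 2 (C.comp (C.comp s Z) t) := by
  have h1 : s ∈ C.gr (S.prod S) (S.dim + 0) := by rw [add_zero]; exact trans_mem hs hS
  have h2 : Z ∈ C.gr (S.prod T) (S.dim + 0) := by rw [hS]; exact_mod_cast hZ
  have h3 : t ∈ C.gr (T.prod T) (T.dim + 0) := by rw [add_zero]; exact trans_mem ht hT
  have h4 := comp_mem C (comp_mem C h1 h2) h3
  rw [hS] at h4
  exact_mod_cast h4

/-- The transcendental part of the diagonal of a surface with `H^{2,0} = 0` is homologically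
trivial. -/
lemma cl_trans_two {D : HodgeData H} (hD : D.IsHodge) (hDF : D.IsFunctorial)
    {t : C.A (S.prod S)} (ht : IsTranscendental H t) (hS : D.IsGenusZero S) :
    H.cl (C.comp t t) = 0 := by
  have h1 := cl_trans_zero hD hDF ht ht hS.dim (Z := dg C S)
    (by have := dg_mem C S; rw [hS.dim] at this; exact_mod_cast this)
    (fun a ha => by
      rw [hS.genus a ha]
      exact TheoryData.act_map_zero _ _)
  rwa [comp_dg] at h1

end weil

end Pool.Agent.TH85.ZC
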